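import Mathlib

/-!
# Barely independent families, splitting and reaping

A barely independent family over `L` gives a family of `#L` many subsets of `ω` such that every infinite
subset of `ω` is split by all but fewer than `#L` many of them.
-/

set_option autoImplicit false

namespace Pool.Agent.X215.BI

open Set
open scoped Cardinal

/-- `A` or its complement -/
def side {L : Type} (b : Bool) (A : Set L) : Set L := if b then Aᶜ else A

/-- `I` is a barely independent family over `L` (only the cardinality of `L` matters): `I` is an infinite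
family of subsets of `L` of size `#L`, all Boolean combinations of finite subfamilies have size `#L`,
and all Boolean combinations of countably infinite subfamilies have size less than `#L`. -/
def BarelyIndependent (L : Type) (I : Set (Set L)) : Prop :=
  (∀ A ∈ I, #A = #L) ∧ I.Infinite ∧
  (∀ F : Set (Set L), F ⊆ I → F.Finite → ∀ h : Set L → Bool,
    #(⋂ A ∈ F, side (h A) A : Set L) = #L) ∧
  (∀ F : Set (Set L), F ⊆ I → F.Countable → F.Infinite → ∀ h : Set L → Bool,
    #(⋂ A ∈ F, side (h A) A : Set L) < #L)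

/-- `s` splits `r` -/
def Splits (s r : Set ℕ) : Prop := (r ∩ s).Infinite ∧ (r \ s).Infinite

/-- the splitting number: the least size of a family `F` of subsets of `ω` such that every infinite
subset of `ω` is split by a member of `F` -/
noncomputable def splitting : Cardinal.{0} :=
  sInf {κ | ∃ F : Set (Set ℕ), #F = κ ∧ ∀ r : Set ℕ, r.Infinite → ∃ s ∈ F, Splits s r}

/-- the reaping number: the least size of a family `R` of infinite subsets of `ω` such that no single
set splits all members of `R` -/
noncomputable def reaping : Cardinal.{0} :=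
  sInf {κ | ∃ R : Set (Set ℕ), #R = κ ∧ (∀ r ∈ R, r.Infinite) ∧ ¬ ∃ s : Set ℕ, ∀ r ∈ R, Splits s r}

/-- the sequence of subsets of `ω` given by a barely independent family -/
theorem exists_seq {L : Type} (hL : (#L).IsRegular) (hL' : ℵ₀ < #L) {I : Set (Set L)}
    (hI : BarelyIndependent L I) :
    ∃ x : L → Set ℕ, ∀ r : Set ℕ, r.Infinite → #{a : L | ¬ Splits (x a) r} < #L := by
  obtain ⟨-, hinf, -, hcomb⟩ := hI
  let A : ℕ ↪ I := hinf.natEmbedding
  have hA : Function.Injective fun n => (A n : Set L) :=
    fun m n h => A.injective (Subtype.ext h)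
  refine ⟨fun a => {n | a ∈ (A n : Set L)}, fun r hr => ?_⟩
  have h1 : ∀ (b : Bool) (k : ℕ), #{a : L | ∀ n ∈ r, k ≤ n → a ∈ side b (A n : Set L)} < #L := by
    intro b k
    let F : Set (Set L) := (fun n => (A n : Set L)) '' (r \ Iio k)
    have hF : F.Infinite := (hr.diff (finite_Iio k)).image hA.injOn
    have h2 := hcomb F (by rintro _ ⟨n, -, rfl⟩; exact (A n).2) ((to_countable _).image _) hF
      (fun _ => b)
    refine lt_of_le_of_lt (Cardinal.mk_le_mk_of_subset ?_) h2
    intro a ha
    simp only [mem_iInter]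
    rintro _ ⟨n, ⟨hn, hk⟩, rfl⟩
    exact ha n hn (not_lt.1 hk)
  have h2 : {a : L | ¬ Splits {n | a ∈ (A n : Set L)} r} ⊆
      ⋃ p : Bool × ℕ, {a : L | ∀ n ∈ r, p.2 ≤ n → a ∈ side p.1 (A n : Set L)} := by
    intro a ha
    have h3 : ∀ s : Set ℕ, ¬ s.Infinite → ∃ k, ∀ n ∈ s, n < k := by
      intro s hs
      obtain ⟨k, hk⟩ := (not_infinite.1 hs).bddAbove
      exact ⟨k + 1, fun n hn => Nat.lt_succ_of_le (hk hn)⟩
    have ha' : ¬ (r ∩ {n | a ∈ (A n : Set L)}).Infinite ∨
        ¬ (r \ {n | a ∈ (A n : Set L)}).Infinite := by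
      by_contra hcon
      push Not at hcon
      exact ha hcon
    rcases ha' with h | h
    · obtain ⟨k, hk⟩ := h3 _ h
      refine mem_iUnion.2 ⟨(true, k), fun n hn hkn => ?_⟩
      simp only [side, if_true]
      intro hna
      exact absurd (hk n ⟨hn, hna⟩) (not_lt.2 hkn)
    · obtain ⟨k, hk⟩ := h3 _ h
      refine mem_iUnion.2 ⟨(false, k), fun n hn hkn => ?_⟩
      simp only [side, Bool.false_eq_true, if_false]
      by_contra hna
      exact absurd (hk n ⟨hn, hna⟩) (not_lt.2 hkn)
  refine lt_of_le_of_lt (Cardinal.mk_le_mk_of_subset h2) ?_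
  refine (Cardinal.card_iUnion_lt_iff_forall_of_isRegular hL ?_).2 fun p => h1 p.1 p.2
  exact lt_of_le_of_lt Cardinal.mk_le_aleph0 hL'

/-- A barely independent family over `ω₁` gives a splitting family of size `ℵ₁`. -/
theorem splitting_le {L : Type} (hL : (#L).IsRegular) (hL' : ℵ₀ < #L) {I : Set (Set L)}
    (hI : BarelyIndependent L I) : splitting ≤ #L := by
  obtain ⟨x, hx⟩ := exists_seq hL hL' hI
  have h1 : splitting ≤ #(range x) := by
    refine csInf_le' ⟨range x, rfl, fun r hr => ?_⟩
    have h2 : {a : L | ¬ Splits (x a) r} ≠ univ := by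
      intro h3
      have h4 := hx r hr
      rw [h3, Cardinal.mk_univ] at h4
      exact lt_irrefl _ h4
    obtain ⟨a, ha⟩ := (ne_univ_iff_exists_notMem _).1 h2
    exact ⟨x a, ⟨a, rfl⟩, by simpa using ha⟩
  exact h1.trans Cardinal.mk_range_le

/-- A barely independent family over `L` gives `#L ≤ reaping`. -/
theorem le_reaping {L : Type} (hL : (#L).IsRegular) (hL' : ℵ₀ < #L) {I : Set (Set L)}
    (hI : BarelyIndependent L I) : #L ≤ reaping := by
  obtain ⟨x, hx⟩ := exists_seq hL hL' hI
  refine le_csInf ⟨_, {r | r.Infinite}, rfl, fun r hr => hr, ?_⟩ ?_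
  · rintro ⟨s, hs⟩
    have h1 : (univ : Set ℕ).Infinite := infinite_univ
    by_cases h2 : s.Infinite
    · have h3 := (hs s h2).2
      simp at h3
    · have h3 : (sᶜ).Infinite := (not_infinite.1 h2).infinite_compl
      have h4 := (hs sᶜ h3).1
      simp at h4
  · rintro κ ⟨R, rfl, hR, hno⟩
    by_contra hcon
    push Not at hcon
    have h1 := (Cardinal.card_iUnion_lt_iff_forall_of_isRegular
      (t := fun r : R => {a : L | ¬ Splits (x a) r}) hL hcon).2 fun r => hx r (hR r r.2)
    have h2 : (⋃ r : R, {a : L | ¬ Splits (x a) r}) ≠ univ := by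
      intro h3
      rw [h3, Cardinal.mk_univ] at h1
      exact lt_irrefl _ h1
    obtain ⟨a, ha⟩ := (ne_univ_iff_exists_notMem _).1 h2
    refine hno ⟨x a, fun r hr => ?_⟩
    by_contra h3
    exact ha (mem_iUnion.2 ⟨⟨r, hr⟩, h3⟩)

end Pool.Agent.X215.BI
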